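import Pool.Agent.H446Z.Reimer

/-!
The BKR inequality on a countable product with arbitrary (finite or infinite) witness sets.
-/

set_option autoImplicit false

namespace Pool.Agent.H446Z.BKRInf

open MeasureTheory Measure Finset
open scoped ENNReal symmDiff

variable {X : Type*} [MeasurableSpace X] (ν : Measure X) [IsProbabilityMeasure ν]

/-- product measure on sequences -/
noncomputable abbrev mu : Measure (ℕ → X) := Measure.infinitePi fun _ : ℕ => ν

/-- product measure on pairs of sequences -/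
noncomputable abbrev PP : Measure (Bool × ℕ → X) := Measure.infinitePi fun _ : Bool × ℕ => ν

def pick (s : ℕ → Bool) (ω : Bool × ℕ → X) : ℕ → X := fun i => ω (s i, i)

theorem measurable_pick (s : ℕ → Bool) : Measurable (pick (X := X) s) := by
  unfold pick; fun_prop

theorem map_pair (s : ℕ → Bool) :
    (PP ν).map (fun ω => (pick s ω, pick (fun i => !s i) ω)) = (mu ν).prod (mu ν) := by
  let f : Bool × ℕ → Bool × ℕ := fun p => (if p.1 = true then s p.2 else !s p.2, p.2)
  have hf : Function.Injective f := by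
    rintro ⟨b, i⟩ ⟨b', i'⟩ h
    simp only [f, Prod.mk.injEq] at h
    obtain ⟨h1, rfl⟩ := h
    revert h1
    generalize s i = a
    cases a <;> cases b <;> cases b' <;> simp
  have h1 : (PP ν).map (fun ω p => ω (f p)) = PP ν :=
    Measure.map_infinitePi_infinitePi_of_inj (P := fun _ : Bool × ℕ => ν) hf
  have h2 := Measure.infinitePi_map_curry (fun (_ : Bool) (_ : ℕ) => ν)
  have h3 := Measure.infinitePi_map_eval_prod (P := fun _ : Bool => mu ν)
    (i := true) (j := false) (by decide)
  rw [← h3, ← h2]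
  conv_rhs => rw [show (Measure.infinitePi fun _ : Bool × ℕ => ν) = PP ν from rfl, ← h1]
  rw [Measure.map_map (by fun_prop) (by fun_prop), Measure.map_map (by fun_prop) (by fun_prop)]
  congr 1

theorem measurable_pair (s : ℕ → Bool) :
    Measurable (fun ω : Bool × ℕ → X => (pick s ω, pick (fun i => !s i) ω)) :=
  (measurable_pick s).prodMk (measurable_pick _)

theorem map_pick (s : ℕ → Bool) : (PP ν).map (pick s) = mu ν := by
  have h := congrArg (fun m => m.map Prod.fst) (map_pair ν s)
  rw [Measure.map_map measurable_fst (measurable_pair s), Measure.map_fst_prod, measure_univ, one_smul] at h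
  exact h

theorem pick_apply (s : ℕ → Bool) {A : Set (ℕ → X)} (hA : MeasurableSet A) :
    PP ν (pick s ⁻¹' A) = mu ν A := by
  rw [← map_pick ν s, Measure.map_apply (measurable_pick s) hA]

def mix (s : ℕ → Bool) (p : (ℕ → X) × (ℕ → X)) : ℕ → X :=
  fun i => if s i = true then p.1 i else p.2 i

theorem measurable_mix (s : ℕ → Bool) : Measurable (mix (X := X) s) := by
  refine measurable_pi_lambda _ fun i => ?_
  unfold mix
  split_ifs <;> fun_prop

theorem map_mix (s : ℕ → Bool) : ((mu ν).prod (mu ν)).map (mix s) = mu ν := by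
  rw [← map_pair ν (fun _ => true), Measure.map_map (measurable_mix s) (measurable_pair _),
    ← map_pick ν s]
  congr 1
  funext ω i
  simp only [Function.comp, mix, pick]
  cases s i <;> simp

/-- points whose `s`-coordinates force `A` almost surely -/
def D (s : ℕ → Bool) (A : Set (ℕ → X)) : Set (ℕ → X) :=
  {z | mu ν (Prod.mk z ⁻¹' (mix s ⁻¹' Aᶜ)) = 0}

theorem measurableSet_D (s : ℕ → Bool) {A : Set (ℕ → X)} (hA : MeasurableSet A) :
    MeasurableSet (D ν s A) :=
  measurable_measure_prodMk_left (measurable_mix s hA.compl) (measurableSet_singleton 0)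

omit [IsProbabilityMeasure ν] in
theorem D_congr (s : ℕ → Bool) (A : Set (ℕ → X)) {z z' : ℕ → X}
    (h : ∀ i, s i = true → z i = z' i) (hz : z ∈ D ν s A) : z' ∈ D ν s A := by
  have : Prod.mk z' ⁻¹' (mix s ⁻¹' Aᶜ) = Prod.mk z ⁻¹' (mix s ⁻¹' Aᶜ) := by
    ext y
    have : mix s (z', y) = mix s (z, y) := by
      funext i
      unfold mix
      split_ifs with hi
      · exact (h i hi).symm
      · rfl
    simp only [Set.mem_preimage, this]
  simpa only [D, Set.mem_setOf_eq, this] using hz

theorem D_diff (s : ℕ → Bool) {A : Set (ℕ → X)} (hA : MeasurableSet A) :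
    mu ν (D ν s A \ A) = 0 := by
  have hm : MeasurableSet (D ν s A \ A) := (measurableSet_D ν s hA).diff hA
  rw [← map_mix ν s, Measure.map_apply (measurable_mix s) hm,
    Measure.measure_prod_null (measurable_mix s hm)]
  refine Filter.Eventually.of_forall fun z => ?_
  by_cases hz : z ∈ D ν s A
  · refine measure_mono_null ?_ hz
    intro y hy
    exact hy.2
  · have : Prod.mk z ⁻¹' (mix s ⁻¹' (D ν s A \ A)) = ∅ := by
      ext y
      simp only [Set.mem_preimage, Set.mem_empty_iff_false, iff_false]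
      intro hy
      refine hz (D_congr ν s A (fun i hi => ?_) hy.1)
      simp [mix, hi]
    show mu ν _ = 0
    rw [this, measure_empty]

def ext (n : ℕ) (S : Fin n → Bool) : ℕ → Bool := fun i => if h : i < n then S ⟨i, h⟩ else true

def C (A B : Set (ℕ → X)) (n : ℕ) : Set (ℕ → X) :=
  ⋃ J : Fin n → Bool, ⋃ K : Fin n → Bool, ⋃ _ : (∀ i, ¬ (J i = true ∧ K i = true)),
    D ν (ext n J) A ∩ D ν (ext n K) B

theorem measurableSet_C {A B : Set (ℕ → X)} (hA : MeasurableSet A) (hB : MeasurableSet B)
    (n : ℕ) : MeasurableSet (C ν A B n) :=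
  MeasurableSet.iUnion fun J => MeasurableSet.iUnion fun K => MeasurableSet.iUnion fun _ =>
    (measurableSet_D ν _ hA).inter (measurableSet_D ν _ hB)

omit [IsProbabilityMeasure ν] in
theorem mem_D_of (n : ℕ) (A : Set (ℕ → X)) (ω : ℕ → X) (J : Set ℕ) [DecidablePred (· ∈ J)]
    (h : ∀ η : ℕ → X, (∀ i ∈ J, η i = ω i) → η ∈ A) :
    ω ∈ D ν (ext n fun i => decide (i.1 ∈ J)) A := by
  have : Prod.mk ω ⁻¹' (mix (ext n fun i => decide (i.1 ∈ J)) ⁻¹' Aᶜ) = ∅ := by
    ext y
    simp only [Set.mem_preimage, Set.mem_empty_iff_false, iff_false, Set.mem_compl_iff, not_not]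
    refine h _ fun i hi => ?_
    have : ext n (fun i => decide (i.1 ∈ J)) i = true := by
      unfold ext; split_ifs <;> simp [hi]
    simp [mix, this]
  show mu ν _ = 0
  rw [this, measure_empty]

theorem count_bound {A B : Set (ℕ → X)} (hA : MeasurableSet A) (hB : MeasurableSet B) (n : ℕ) :
    ∑ S : Fin n → Bool, PP ν (pick (ext n S) ⁻¹' C ν A B n) ≤
      ∑ S : Fin n → Bool, PP ν (pick (ext n S) ⁻¹' A ∩ pick (ext n fun i => !S i) ⁻¹' B) := by
  classical
  have hae : ∀ {E : Set (ℕ → X)}, MeasurableSet E → ∀ᵐ ω ∂PP ν, ∀ S J : Fin n → Bool,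
      pick (ext n S) ω ∈ D ν (ext n J) E → pick (ext n S) ω ∈ E := by
    intro E hE
    rw [ae_all_iff]; intro S
    rw [ae_all_iff]; intro J
    rw [ae_iff]
    have := pick_apply ν (ext n S) ((measurableSet_D ν (ext n J) hE).diff hE)
    rw [D_diff ν _ hE] at this
    convert this using 2
    ext ω
    simp
  have hm1 : ∀ S : Fin n → Bool, MeasurableSet (pick (ext n S) ⁻¹' C ν A B n) := fun S =>
    measurable_pick _ (measurableSet_C ν hA hB n)
  have hm2 : ∀ S : Fin n → Bool,
      MeasurableSet (pick (ext n S) ⁻¹' A ∩ pick (ext n fun i => !S i) ⁻¹' B) := fun S =>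
    (measurable_pick _ hA).inter (measurable_pick _ hB)
  simp only [← lintegral_indicator_one (hm1 _), ← lintegral_indicator_one (hm2 _)]
  rw [← lintegral_finsetSum _ (fun S _ => measurable_one.indicator (hm1 S)),
    ← lintegral_finsetSum _ (fun S _ => measurable_one.indicator (hm2 S))]
  refine lintegral_mono_ae ?_
  filter_upwards [hae hA, hae hB] with ω hωA hωB
  simp only [Set.indicator_apply, Pi.one_apply, Finset.sum_boole]
  have := Reimer.reimer {S : Fin n → Bool | pick (ext n S) ω ∈ A}
    {S : Fin n → Bool | pick (ext n S) ω ∈ B}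
    (univ.filter fun S : Fin n → Bool => ω ∈ pick (ext n S) ⁻¹' C ν A B n) (by
      intro S hS
      simp only [mem_filter, mem_univ, true_and, Set.mem_preimage, C, Set.mem_iUnion] at hS
      obtain ⟨J, K, hJK, h1, h2⟩ := hS
      have key : ∀ (J T : Fin n → Bool), (∀ i, J i = true → T i = S i) →
          ∀ i, ext n J i = true → pick (ext n S) ω i = pick (ext n T) ω i := by
        intro J T hT i hi
        unfold pick
        congr 2
        unfold ext at hi ⊢
        split_ifs with h
        · rw [dif_pos h] at hi; exact (hT _ hi).symm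
        · rfl
      refine ⟨J, K, hJK, fun T hT => hωA T J (D_congr ν _ _ (key J T hT) h1),
        fun T hT => hωB T K (D_congr ν _ _ (key K T hT) h2)⟩)
  rw [Nat.cast_le]
  convert this using 2
  ext S
  simp

theorem term_bound {A B B' : Set (ℕ → X)} (hA : MeasurableSet A) (hB : MeasurableSet B)
    (hB' : MeasurableSet B') (n : ℕ)
    (hn : ∀ z z' : ℕ → X, (∀ i < n, z i = z' i) → z ∈ B' → z' ∈ B') (S : Fin n → Bool) :
    PP ν (pick (ext n S) ⁻¹' A ∩ pick (ext n fun i => !S i) ⁻¹' B) ≤
      mu ν A * mu ν B' + mu ν (B \ B') := by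
  have h1 : pick (ext n S) ⁻¹' A ∩ pick (ext n fun i => !S i) ⁻¹' B ⊆
      (fun ω => (pick (ext n S) ω, pick (fun i => !ext n S i) ω)) ⁻¹' (A ×ˢ B') ∪
        pick (ext n fun i => !S i) ⁻¹' (B \ B') := by
    rintro ω ⟨h1, h2⟩
    by_cases h3 : pick (ext n fun i => !S i) ω ∈ B'
    · left
      refine ⟨h1, hn _ _ (fun i hi => ?_) h3⟩
      simp [pick, ext, hi]
    · right; exact ⟨h2, h3⟩
  refine (measure_mono h1).trans ((measure_union_le _ _).trans ?_)
  rw [pick_apply ν _ (hB.diff hB'), ← Measure.map_apply (measurable_pair _) (hA.prod hB'),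
    map_pair, Measure.prod_prod]

theorem C_bound {A B B' : Set (ℕ → X)} (hA : MeasurableSet A) (hB : MeasurableSet B)
    (hB' : MeasurableSet B') (n : ℕ)
    (hn : ∀ z z' : ℕ → X, (∀ i < n, z i = z' i) → z ∈ B' → z' ∈ B') :
    mu ν (C ν A B n) ≤ mu ν A * mu ν B' + mu ν (B \ B') := by
  have h := (count_bound ν hA hB n).trans
    (Finset.sum_le_sum fun S _ => term_bound ν hA hB hB' n hn S)
  simp only [pick_apply ν _ (measurableSet_C ν hA hB n), Finset.sum_const, nsmul_eq_mul] at h
  refine (ENNReal.mul_le_mul_iff_right ?_ ?_).1 h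
  · simp
  · simp

theorem main {A B : Set (ℕ → X)} (hA : MeasurableSet A) (hB : MeasurableSet B) :
    ∃ E : Set (ℕ → X), MeasurableSet E ∧
      {ω : ℕ → X | ∃ J K : Set ℕ, Disjoint J K ∧
          (∀ η : ℕ → X, (∀ i ∈ J, η i = ω i) → η ∈ A) ∧
          (∀ η : ℕ → X, (∀ i ∈ K, η i = ω i) → η ∈ B)} ⊆ E ∧
      mu ν E ≤ mu ν A * mu ν B := by
  classical
  refine ⟨⋂ n, C ν A B n, MeasurableSet.iInter fun n => measurableSet_C ν hA hB n, ?_, ?_⟩
  · rintro ω ⟨J, K, hJK, hJ, hK⟩
    refine Set.mem_iInter.2 fun n => ?_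
    simp only [C, Set.mem_iUnion]
    refine ⟨fun i => decide (i.1 ∈ J), fun i => decide (i.1 ∈ K), ?_,
      mem_D_of ν n A ω J hJ, mem_D_of ν n B ω K hK⟩
    intro i hi
    simp only [decide_eq_true_eq] at hi
    exact Set.disjoint_left.1 hJK hi.1 hi.2
  · refine ENNReal.le_of_forall_pos_le_add fun ε hε _ => ?_
    obtain ⟨B', hB'c, hB'⟩ := exists_measure_symmDiff_lt_of_generateFrom_isSetRing (μ := mu ν)
      (isSetRing_measurableCylinders (α := fun _ : ℕ => X))
      ⟨{Set.univ}, Set.countable_singleton _, Set.singleton_subset_iff.2 (univ_mem_measurableCylinders _), by simp⟩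
      generateFrom_measurableCylinders.symm hB (ε := (ε : ℝ≥0∞) / 2)
      (ENNReal.half_pos (by simpa using hε.ne'))
    have hB'm : MeasurableSet B' := MeasurableSet.of_mem_measurableCylinders hB'c
    obtain ⟨s, S, -, rfl⟩ := (mem_measurableCylinders _).1 hB'c
    have h1 := C_bound ν hA hB hB'm (s.sup id + 1) (by
      intro z z' h hz
      rw [mem_cylinder] at hz ⊢
      have : s.restrict z' = s.restrict z := by
        funext i
        exact (h i (Nat.lt_succ_of_le (Finset.le_sup (f := id) i.2))).symm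
      rwa [this])
    refine (measure_mono (Set.iInter_subset _ _)).trans (h1.trans ?_)
    have h2 : mu ν (B \ cylinder s S) ≤ ε / 2 :=
      (measure_mono (fun x hx => Or.inr hx)).trans hB'.le
    have h3 : mu ν (cylinder s S) ≤ mu ν B + ε / 2 := by
      have : cylinder s S ⊆ B ∪ (cylinder s S ∆ B) := by
        intro x hx
        by_cases hxB : x ∈ B
        · exact Or.inl hxB
        · exact Or.inr (Or.inl ⟨hx, hxB⟩)
      exact (measure_mono this).trans ((measure_union_le _ _).trans (by gcongr))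
    calc mu ν A * mu ν (cylinder s S) + mu ν (B \ cylinder s S)
        ≤ mu ν A * (mu ν B + ε / 2) + ε / 2 := by gcongr
      _ = mu ν A * mu ν B + (mu ν A * (ε / 2) + ε / 2) := by ring
      _ ≤ mu ν A * mu ν B + (1 * (ε / 2) + ε / 2) := by gcongr; exact prob_le_one
      _ = mu ν A * mu ν B + ε := by rw [one_mul, ENNReal.add_halves]

end Pool.Agent.H446Z.BKRInf
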