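import Mathlib

/-!
Reimer's butterfly lemma and the main lemma behind the BKR inequality on the Boolean cube.
-/

set_option autoImplicit false

namespace Pool.Agent.H446Z.Reimer

open Finset

variable {ι : Type*} [Fintype ι] [DecidableEq ι]

def c : Bool → Bool → Bool → ℤ
  | false, false, false => 1
  | false, false, true => 0
  | true, true, false => 0
  | true, true, true => 1
  | false, true, false => 1
  | false, true, true => -1
  | true, false, false => 2
  | true, false, true => -1

def m : Bool → Bool → ℤ
  | false, false => 1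
  | false, true => 0
  | true, false => 1
  | true, true => -1

theorem tensor (f g : ι → Bool → ℤ) :
    ∑ z : ι → Bool, (∏ i, f i (z i)) * ∏ i, g i (z i) = ∏ i, ∑ b, f i b * g i b := by
  rw [Finset.prod_univ_sum, Fintype.piFinset_univ]
  refine Finset.sum_congr rfl fun z _ => ?_
  rw [Finset.prod_mul_distrib]

def gam (x y z : ι → Bool) : ℤ := ∏ i, c (x i) (y i) (z i)

def mm (z u : ι → Bool) : ℤ := ∏ i, m (z i) (u i)

theorem mm_mm (z z' : ι → Bool) : ∑ u, mm z u * mm u z' = if z = z' then 1 else 0 := by
  unfold mm
  rw [tensor (fun i b => m (z i) b) (fun i b => m b (z' i))]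
  have h : ∀ a a' : Bool, ∑ b, m a b * m b a' = if a = a' then 1 else 0 := by decide
  simp only [h]
  split_ifs with hz
  · subst hz; simp
  · obtain ⟨i, hi⟩ := Function.ne_iff.1 hz
    exact Finset.prod_eq_zero (Finset.mem_univ i) (by simp [hi])

theorem gam_zero (x y z : ι → Bool) (h : ¬ ∀ i, x i = y i → z i = x i) : gam x y z = 0 := by
  push Not at h
  obtain ⟨i, h1, h2⟩ := h
  refine Finset.prod_eq_zero (Finset.mem_univ i) ?_
  revert h1 h2
  generalize x i = a; generalize y i = b; generalize z i = d
  revert a b d; decide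

theorem dual_zero (x y z : ι → Bool) (h : ¬ ∀ i, x i ≠ y i → z i = y i) :
    ∑ u, mm z u * ∑ z', gam x y z' * mm z' u = 0 := by
  push Not at h
  obtain ⟨i, h1, h2⟩ := h
  have e : ∀ u : ι → Bool, ∑ z', gam x y z' * mm z' u
      = ∏ j, ∑ b, c (x j) (y j) b * m b (u j) := fun u =>
    tensor (fun j b => c (x j) (y j) b) (fun j b => m b (u j))
  simp only [e]
  unfold mm
  rw [tensor (fun j b => m (z j) b) (fun j b' => ∑ b, c (x j) (y j) b * m b b')]
  refine Finset.prod_eq_zero (Finset.mem_univ i) ?_
  revert h1 h2
  generalize x i = a; generalize y i = b; generalize z i = d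
  revert a b d; decide

theorem even_of_zero (F : Finset (ι → Bool)) (y : (ι → Bool) → (ι → Bool)) (l : F → ℤ)
    (h : ∀ z, ∑ x : F, l x * gam x (y x) z = 0) : ∀ x, 2 ∣ l x := by
  by_contra hne
  push Not at hne
  obtain ⟨x, hx, hmin⟩ := Finset.exists_min_image (univ.filter fun x : F => ¬ 2 ∣ l x)
    (fun x => (univ.filter fun i => x.1 i = true).card)
    (by obtain ⟨x, hx⟩ := hne; exact ⟨x, by simpa using hx⟩)
  have hx' : ¬ 2 ∣ l x := by simpa using hx
  have h0 := h x
  rw [← Finset.add_sum_erase _ _ (Finset.mem_univ x)] at h0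
  have h1 : (2 : ℤ) ∣ ∑ x' ∈ univ.erase x, l x' * gam x' (y x') x := by
    refine Finset.dvd_sum fun x' hx'' => ?_
    by_cases hl : 2 ∣ l x'
    · exact Dvd.dvd.mul_right hl _
    · have hle := hmin x' (by simpa using hl)
      have hne' : x' ≠ x := Finset.ne_of_mem_erase hx''
      have : ∃ i, x'.1 i = true ∧ x.1 i = false := by
        by_contra hcon
        push Not at hcon
        have hsub : (univ.filter fun i => x'.1 i = true) ⊆ (univ.filter fun i => x.1 i = true) := by
          intro i hi
          simp only [mem_filter, mem_univ, true_and] at hi ⊢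
          simpa using hcon i hi
        have heq := Finset.eq_of_subset_of_card_le hsub hle
        apply hne'
        apply Subtype.ext
        funext i
        have := Finset.ext_iff.1 heq i
        simp only [mem_filter, mem_univ, true_and] at this
        exact Bool.eq_iff_iff.2 this
      obtain ⟨i, hi1, hi2⟩ := this
      refine Dvd.dvd.mul_left ?_ _
      refine Dvd.dvd.trans ?_ (Finset.dvd_prod_of_mem _ (Finset.mem_univ i))
      rw [hi1, hi2]
      generalize y x' i = b
      revert b; decide
  have h2 : (2 : ℤ) ∣ l x * gam x (y x) x := by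
    have : l x * gam x (y x) x = - ∑ x' ∈ univ.erase x, l x' * gam x' (y x') x := by linarith
    rw [this]; exact (dvd_neg).2 h1
  rcases Int.prime_two.dvd_or_dvd h2 with h3 | h3
  · exact hx' h3
  · obtain ⟨i, -, hi⟩ := (Int.prime_two.dvd_finsetProd_iff _).1 h3
    revert hi
    generalize x.1 i = a; generalize y x i = b
    revert a b; decide

theorem indep (F : Finset (ι → Bool)) (y : (ι → Bool) → (ι → Bool)) (l : F → ℤ)
    (h : ∀ z, ∑ x : F, l x * gam x (y x) z = 0) : ∀ x, l x = 0 := by
  have key : ∀ k : ℕ, ∀ l : F → ℤ, (∀ z, ∑ x : F, l x * gam x (y x) z = 0) →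
      ∀ x, (2 : ℤ) ^ k ∣ l x := by
    intro k
    induction k with
    | zero => intro l _ x; simp
    | succ k ih =>
      intro l h x
      have h2 := even_of_zero F y l h
      choose l' hl' using h2
      have := ih l' (fun z => by
        have h3 := h z
        simp only [hl', mul_assoc, ← Finset.mul_sum] at h3
        simpa using h3) x
      rw [hl', pow_succ']
      exact mul_dvd_mul_left 2 this
  intro x
  refine Int.eq_zero_of_abs_lt_dvd (key (l x).natAbs l h x) ?_
  have : (l x).natAbs < 2 ^ (l x).natAbs := Nat.lt_two_pow_self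
  rw [Int.abs_eq_natAbs]
  exact_mod_cast this

theorem butterfly (F : Finset (ι → Bool)) (y : (ι → Bool) → (ι → Bool)) (T : Finset (ι → Bool))
    (hT : ∀ x ∈ F, ∀ x' ∈ F, ∀ z : ι → Bool, (∀ i, x i = y x i → z i = x i) →
      (∀ i, x' i ≠ y x' i → z i = y x' i) → z ∈ T) : F.card ≤ T.card := by
  have hli : LinearIndependent ℤ (fun x : F => fun z : T => gam x (y x) z) := by
    rw [Fintype.linearIndependent_iff]
    intro l hl
    apply indep F y l
    set w : (ι → Bool) → ℤ := fun z => ∑ x : F, l x * gam x (y x) z with hw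
    have hwT : ∀ z ∈ T, w z = 0 := by
      intro z hz
      have := congrFun hl ⟨z, hz⟩
      simpa [hw, Finset.sum_apply] using this
    set v : (ι → Bool) → ℤ := fun u => ∑ z, w z * mm z u with hv
    have hv' : ∀ u, v u = ∑ x : F, l x * ∑ z', gam x (y x) z' * mm z' u := by
      intro u
      simp only [hv, hw, Finset.sum_mul, Finset.mul_sum, mul_assoc]
      exact Finset.sum_comm
    have hprod : ∀ z, w z * ∑ u, mm z u * v u = 0 := by
      intro z
      by_cases hz : z ∈ T
      · rw [hwT z hz, zero_mul]
      · by_cases hr : ∃ x ∈ F, ∀ i, x i = y x i → z i = x i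
        · obtain ⟨x, hx, hxz⟩ := hr
          have : ∑ u, mm z u * v u = 0 := by
            simp only [hv', Finset.mul_sum (s := (univ : Finset F))]
            rw [Finset.sum_comm]
            refine Finset.sum_eq_zero fun x' _ => ?_
            have h0 := dual_zero x'.1 (y x') z (fun h => hz (hT x hx x' x'.2 z hxz h))
            simp only [mul_left_comm (mm z _) (l x'), ← Finset.mul_sum, h0, mul_zero]
          rw [this, mul_zero]
        · have : w z = 0 := by
            refine Finset.sum_eq_zero fun x _ => ?_
            rw [gam_zero x.1 (y x) z (fun h => hr ⟨x, x.2, h⟩), mul_zero]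
          rw [this, zero_mul]
    have hsq : ∑ u, v u * v u = 0 := by
      have : ∑ u, v u * v u = ∑ z, w z * ∑ u, mm z u * v u := by
        conv_lhs => enter [2, u, 1]; rw [hv]
        simp only [Finset.sum_mul, Finset.mul_sum, mul_assoc]
        exact Finset.sum_comm
      rw [this]
      exact Finset.sum_eq_zero fun z _ => hprod z
    have hv0 : ∀ u, v u = 0 := by
      intro u
      have := (Finset.sum_eq_zero_iff_of_nonneg (fun u _ => mul_self_nonneg (v u))).1 hsq u
        (Finset.mem_univ u)
      exact mul_self_eq_zero.1 this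
    intro z
    have : w z = ∑ u, v u * mm u z := by
      simp only [hv, Finset.sum_mul, mul_assoc]
      rw [Finset.sum_comm]
      simp only [← Finset.mul_sum, mm_mm]
      simp
    show w z = 0
    rw [this]
    simp [hv0]
  have := hli.fintype_card_le_finrank
  simpa using this

open Classical in
/-- Reimer's main lemma. -/
theorem reimer (A B : Set (ι → Bool)) (F : Finset (ι → Bool))
    (hF : ∀ x ∈ F, ∃ J K : ι → Bool, (∀ i, ¬ (J i = true ∧ K i = true)) ∧
      (∀ z : ι → Bool, (∀ i, J i = true → z i = x i) → z ∈ A) ∧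
      (∀ z : ι → Bool, (∀ i, K i = true → z i = x i) → z ∈ B)) :
    F.card ≤ (univ.filter fun z : ι → Bool => z ∈ A ∧ (fun i => !z i) ∈ B).card := by
  choose! J K hJK hA hB using hF
  refine butterfly F (fun x i => if J x i = true then x i else !x i) _ ?_
  intro x hx x' hx' z h1 h2
  simp only [mem_filter, mem_univ, true_and]
  refine ⟨hA x hx z fun i hi => h1 i (by simp [hi]), hB x' hx' _ fun i hi => ?_⟩
  have hJ : ¬ J x' i = true := fun h => hJK x' hx' i ⟨h, hi⟩
  have := h2 i (by simp [hJ])
  simp only [hJ] at this
  simp [this]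

end Pool.Agent.H446Z.Reimer
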